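import Pool.Agent.W2helper83.BT.Defs2
import Pool.Agent.T6.H62.PP.Val

/-!
# Project BT2, piece RATIO: the ratios of two periodic points
-/

set_option autoImplicit false

namespace Pool.Agent.W2helper73.BT

open IsDedekindDomain NumberField Polynomial
open Pool.Agent.W2helper83.BT
open Pool.Agent.T6.H62.PP.ModVal

theorem map_fz {K L : Type} [Field K] [Field L] (φ : K →+* L) (e : ℤ) (c x : K) (n : ℕ) :
    φ ((fz e c)^[n] x) = (fz e (φ c))^[n] (φ x) := by
  induction n generalizing x with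
  | zero => rfl
  | succ n ih =>
    rw [Function.iterate_succ_apply, Function.iterate_succ_apply, ih]
    congr 1
    unfold fz
    rw [map_add, map_zpow₀]

theorem map_per {K L : Type} [Field K] [Field L] (φ : K →+* L) {e : ℤ} {c x : K}
    (h : PerZ e c x) : PerZ e (φ c) (φ x) := by
  obtain ⟨n, hn, h1⟩ := h
  exact ⟨n, hn, by rw [← map_fz, h1]⟩

theorem val_nat {K : Type} [Field K] [NumberField K] (v : HeightOneSpectrum (𝓞 K)) {d : ℕ}
    (hv : ¬ ((d : ℤ) : 𝓞 K) ∈ v.asIdeal) : v.valuation K (d : K) = 1 := by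
  refine le_antisymm (by simpa using val_int_le v (d : ℤ)) ?_
  by_contra hlt
  rw [not_le] at hlt
  exact hv ((val_int_lt v (d : ℤ)).1 (by simpa using hlt))

theorem dvd_of_val {K : Type} [Field K] [NumberField K] (v : HeightOneSpectrum (𝓞 K)) {m : ℕ}
    {a c : K} (ha : a ≠ 0) (hc : c ≠ 0) (h : v.valuation K a = v.valuation K c ^ m) :
    (m : ℤ) ∣ Multiplicative.toAdd (v.valuationOfNeZero (Units.mk0 a ha)) := by
  have e1 : v.valuationOfNeZero (Units.mk0 a ha) =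
      v.valuationOfNeZero (Units.mk0 c hc) ^ m := by
    have h1 := v.valuationOfNeZero_eq (K := K) (Units.mk0 a ha)
    have h2 := v.valuationOfNeZero_eq (K := K) (Units.mk0 c hc)
    rw [Units.val_mk0, h] at h1
    rw [Units.val_mk0] at h2
    rw [← h2, ← WithZero.coe_pow] at h1
    exact WithZero.coe_inj.1 h1
  rw [e1, toAdd_pow]
  exact ⟨Multiplicative.toAdd (v.valuationOfNeZero (Units.mk0 c hc)), by simp⟩

theorem ratio_core (hL : LOC) (hR : ROOTS) (e : ℤ) (d m : ℕ) (hd : 4 ≤ d)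
    (he : e = d ∨ e = -d) (hm : m = (e - 1).natAbs) (hm0 : 0 < m) (hS : SEL m) (hF : FERM m)
    (K : Type) [Field K] [NumberField K] (ζ : K) (hζ : IsPrimitiveRoot ζ d) :
    {ρ : K | ∃ c x y : K, PerZ e c x ∧ PerZ e c y ∧ x ≠ y ∧ y ≠ 0 ∧ ρ = x / y}.Finite := by
  classical
  have hζd := hζ.pow_eq_one
  have hfin : {v : HeightOneSpectrum (𝓞 K) | ((d : ℤ) : 𝓞 K) ∈ v.asIdeal}.Finite := by
    have hI : Ideal.span {((d : ℤ) : 𝓞 K)} ≠ ⊥ := by
      rw [Ne, Ideal.span_singleton_eq_bot]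
      have : d ≠ 0 := by omega
      exact_mod_cast this
    refine (Ideal.finite_factors hI).subset (fun v hv => ?_)
    exact Ideal.dvd_span_singleton.2 hv
  obtain ⟨T, hT0, hT⟩ := hS K _ hfin
  have hroot : ∀ i : ℕ, (ζ ^ i) ^ d = 1 := by
    intro i
    rw [← pow_mul, mul_comm, pow_mul, hζd, one_pow]
  have hne1 : ∀ i : ℕ, 0 < i → i < d → ζ ^ i ≠ 1 := fun i h0 hi =>
    hζ.pow_ne_one_of_pos_of_lt (by omega) hi
  have hne : ∀ i j : ℕ, i < d → j < d → i ≠ j → ζ ^ i ≠ ζ ^ j :=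
    fun i j hi hj hij h => hij (hζ.pow_inj hi hj h)
  obtain ⟨n1, hn1⟩ : ∃ n : K, n = ζ ^ 1 := ⟨_, rfl⟩
  obtain ⟨n2, hn2⟩ : ∃ n : K, n = ζ ^ 2 := ⟨_, rfl⟩
  obtain ⟨n3, hn3⟩ : ∃ n : K, n = ζ ^ 3 := ⟨_, rfl⟩
  have h12 : n1 ≠ n2 := by rw [hn1, hn2]; exact hne 1 2 (by omega) (by omega) (by norm_num)
  have h13 : n1 ≠ n3 := by rw [hn1, hn3]; exact hne 1 3 (by omega) (by omega) (by norm_num)
  have h23 : n2 ≠ n3 := by rw [hn2, hn3]; exact hne 2 3 (by omega) (by omega) (by norm_num)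
  have r1 : n1 ^ d = 1 := by rw [hn1]; exact hroot 1
  have r2 : n2 ^ d = 1 := by rw [hn2]; exact hroot 2
  have r3 : n3 ^ d = 1 := by rw [hn3]; exact hroot 3
  have q1 : n1 ≠ 1 := by rw [hn1]; exact hne1 1 (by norm_num) (by omega)
  have q2 : n2 ≠ 1 := by rw [hn2]; exact hne1 2 (by norm_num) (by omega)
  have q3 : n3 ≠ 1 := by rw [hn3]; exact hne1 3 (by norm_num) (by omega)
  have c1 : n2 - n3 ≠ 0 := sub_ne_zero.2 h23
  have c2 : n3 - n1 ≠ 0 := sub_ne_zero.2 h13.symm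
  have c3 : n1 - n2 ≠ 0 := sub_ne_zero.2 h12
  let T2 : Finset K := T.image (fun t => -((n2 - n3) / (n1 - n2)) * t) ∪
    T.image (fun t => -((n3 - n1) / (n1 - n2)) * t)
  obtain ⟨L, _, _, _, hLr⟩ := hR K T2 m hm0
  have hfe := hF L
  have hfe2 : ((fun p : L × L => p.1 ^ m) '' {p : L × L | p.1 ^ m + p.2 ^ m = 1}).Finite :=
    hfe.image _
  let f : K → L := fun ρ => algebraMap K L (-((n2 - n3) / (n1 - n2)) * ((ρ - n1) / (ρ - n3)))
  -- the good ratios
  have hgood : {ρ : K | ρ ≠ n1 ∧ ρ ≠ n2 ∧ ρ ≠ n3 ∧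
      ∃ c x y : K, PerZ e c x ∧ PerZ e c y ∧ x ≠ y ∧ y ≠ 0 ∧ ρ = x / y}.Finite := by
    refine Set.Finite.of_finite_image (f := f) (hfe2.subset ?_) ?_
    · rintro _ ⟨ρ, ⟨g1, g2, g3, c, x, y, hx, hy, hxy, hy0, hρ⟩, rfl⟩
      have s1 : ρ - n1 ≠ 0 := sub_ne_zero.2 g1
      have s2 : ρ - n2 ≠ 0 := sub_ne_zero.2 g2
      have s3 : ρ - n3 ≠ 0 := sub_ne_zero.2 g3
      have key : ∀ n : K, n ^ d = 1 → n ≠ 1 → ρ - n ≠ 0 →
          ∃ t ∈ T, ∃ b : K, (ρ - n) / (ρ - n3) = t * b ^ m := by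
        intro n hn hn' hs
        have e1 : x - n * y = (ρ - n) * y := by rw [hρ]; field_simp
        have e3 : x - n3 * y = (ρ - n3) * y := by rw [hρ]; field_simp
        have hq : (ρ - n) / (ρ - n3) ≠ 0 := div_ne_zero hs s3
        obtain ⟨t, ht, b, hb, hβ⟩ := hT (Units.mk0 _ hq) (by
          intro v hv
          obtain ⟨g, hg, hval⟩ := hL K _ (v.valuation K) d e c x y n n3 (by omega) he
            (val_nat v hv) ⟨ζ, hζ⟩ hx hy hxy hn hn' r3 q3
            (by rw [e1]; exact mul_ne_zero hs hy0) (by rw [e3]; exact mul_ne_zero s3 hy0)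
          rw [e1, e3, mul_div_mul_right _ _ hy0, ← hm] at hval
          exact dvd_of_val v hq hg hval)
        exact ⟨t, ht, b, hβ⟩
      obtain ⟨t1, ht1, b1, e1⟩ := key n1 r1 q1 s1
      obtain ⟨t2, ht2, b2, e2⟩ := key n2 r2 q2 s2
      obtain ⟨θ1, hθ1⟩ := hLr (-((n2 - n3) / (n1 - n2)) * t1) (Finset.mem_union_left _
        (Finset.mem_image.2 ⟨t1, ht1, rfl⟩))
      obtain ⟨θ2, hθ2⟩ := hLr (-((n3 - n1) / (n1 - n2)) * t2) (Finset.mem_union_right _
        (Finset.mem_image.2 ⟨t2, ht2, rfl⟩))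
      have g1 : (θ1 * algebraMap K L b1) ^ m = algebraMap K L (-((n2 - n3) / (n1 - n2)) *
          ((ρ - n1) / (ρ - n3))) := by
        rw [mul_pow, hθ1, ← map_pow, ← map_mul, e1, mul_assoc]
      have g2 : (θ2 * algebraMap K L b2) ^ m = algebraMap K L (-((n3 - n1) / (n1 - n2)) *
          ((ρ - n2) / (ρ - n3))) := by
        rw [mul_pow, hθ2, ← map_pow, ← map_mul, e2, mul_assoc]
      refine ⟨(θ1 * algebraMap K L b1, θ2 * algebraMap K L b2), ?_, g1⟩
      show (θ1 * algebraMap K L b1) ^ m + (θ2 * algebraMap K L b2) ^ m = 1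
      rw [g1, g2, ← map_add, ← map_one (algebraMap K L)]
      congr 1
      field_simp
      ring
    · rintro ρ ⟨-, -, g3, -⟩ ρ' ⟨-, -, g3', -⟩ h
      have a1 : ρ - n3 ≠ 0 := sub_ne_zero.2 g3
      have a2 : ρ' - n3 ≠ 0 := sub_ne_zero.2 g3'
      have h1 := (algebraMap K L).injective h
      have h2 := mul_left_cancel₀ (neg_ne_zero.2 (div_ne_zero c1 c3)) h1
      rw [div_eq_div_iff a1 a2] at h2
      have h3 : (n1 - n3) * (ρ - ρ') = 0 := by linear_combination h2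
      have h4 := (mul_eq_zero.1 h3).resolve_left (sub_ne_zero.2 h13)
      exact sub_eq_zero.1 h4
  refine (hgood.union (Set.toFinite ({n1, n2, n3} : Set K))).subset ?_
  intro ρ hρ
  by_cases g1 : ρ = n1
  · right; rw [g1]; simp
  by_cases g2 : ρ = n2
  · right; rw [g2]; simp
  by_cases g3 : ρ = n3
  · right; rw [g3]; simp
  exact Or.inl ⟨g1, g2, g3, hρ⟩

/-- **RATIO** -/
theorem ratio (hL : LOC) (hR : ROOTS) (e : ℤ) (he : 5 ≤ e ∨ e ≤ -4) (hS : SEL (e - 1).natAbs)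
    (hF : FERM (e - 1).natAbs) : RATIO e := by
  classical
  intro K _ _
  obtain ⟨d, hd⟩ : ∃ d : ℕ, d = e.natAbs := ⟨_, rfl⟩
  have hd4 : 4 ≤ d := by omega
  have hed : e = d ∨ e = -d := by omega
  have : NeZero d := ⟨by omega⟩
  let L := CyclotomicField d K
  have : NumberField L := inferInstance
  have hζ := IsCyclotomicExtension.zeta_spec d K L
  have hfin := ratio_core hL hR e d (e - 1).natAbs hd4 hed rfl (by omega) hS hF L _ hζ
  refine ⟨_, hfin.preimage (f := algebraMap K L) (algebraMap K L).injective.injOn, ?_⟩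
  intro c x y hx hy hxy hy0
  refine ⟨algebraMap K L c, algebraMap K L x, algebraMap K L y, map_per _ hx, map_per _ hy,
    fun h => hxy ((algebraMap K L).injective h), ?_, by rw [map_div₀]⟩
  intro h
  exact hy0 ((algebraMap K L).injective (by rw [h, map_zero]))

end Pool.Agent.W2helper73.BT
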